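import Pool.Agent.H90.TC.Tri

set_option autoImplicit false

/-!
Short cycles in the links. The two neighbours `b_i`, `c_j` in the definitions of `NC4` etc. have
different colours, all `b_i` have the same colour, all `c_j` have the same colour (`proper`: both are
different from the colour of `z`, and they alternate along the cycle), so all `2k` vertices are
different and the closed walk `b1 c1 b2 c2 ... b1` in the induced graph is a cycle of length `2k`.
Compare Pool/Agent/H90/SY/LG/Girth.lean for explicit cycles. (For length 10 it may be easier to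
prove a general lemma: a closed walk whose tail of the support has no duplicates and whose length
is at least 3 is a cycle, `SimpleGraph.Walk.isCycle_def`, with edges from the support, or
`SimpleGraph.Walk.cons_isCycle_iff` and `IsPath`.)
-/

namespace Pool.H90TC

open Pool.H90SY

universe u

variable {V : Type u}

/-- all cycles of the link of `z` are longer than `n` -/
def LinkGt (G : SimpleGraph V) (z : V) (n : ℕ) : Prop :=
  ∀ (x : G.neighborSet z) (w : (G.induce (G.neighborSet z)).Walk x x), w.IsCycle → n < w.length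

private theorem Girth_col {G : SimpleGraph V} {col : V → Fin 3} (hT : Tri G col) {z a b c : V}
    (ha : G.Adj z a) (hb : G.Adj z b) (hc : G.Adj z c) (hab : G.Adj a b) (hbc : G.Adj b c) :
    col a = col c := by
  have key : ∀ x a b c : Fin 3, (x ≠ a ∧ x ≠ b ∧ x ≠ c ∧ a ≠ b ∧ b ≠ c) → a = c := by
    decide
  exact key _ _ _ _ ⟨hT.proper z a ha, hT.proper z b hb, hT.proper z c hc, hT.proper a b hab,
    hT.proper b c hbc⟩

private theorem Girth_ne {G : SimpleGraph V} {col : V → Fin 3} (hT : Tri G col) {a b c d : V}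
    (hab : G.Adj a b) (h1 : col a = col c) (h2 : col b = col d) : c ≠ d := by
  intro e
  apply hT.proper a b hab
  rw [h1, h2, e]

private theorem Girth_cyc {W : Type u} {H : SimpleGraph W} {u v : W} (h : H.Adj u v)
    (p : H.Walk v u) (hp : p.IsPath) (hl : 2 ≤ p.length) : (SimpleGraph.Walk.cons h p).IsCycle := by
  rw [SimpleGraph.Walk.isCycle_iff_isPath_tail_and_le_length]
  refine ⟨?_, ?_⟩
  · simpa using hp
  · rw [SimpleGraph.Walk.length_cons]; omega

private theorem Girth_walk {W : Type u} (H : SimpleGraph W) :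
    ∀ (l : List W) (a : W), List.IsChain H.Adj (a :: l) → (a :: l).Nodup →
      ∃ p : H.Walk a ((a :: l).getLast (by simp)),
        p.IsPath ∧ p.length = l.length ∧ ∀ x ∈ p.support, x ∈ a :: l := by
  intro l
  induction l with
  | nil =>
    intro a _ _
    exact ⟨SimpleGraph.Walk.nil, SimpleGraph.Walk.IsPath.nil, rfl, fun x hx => hx⟩
  | cons b l ih =>
    intro a hch hnd
    rw [List.isChain_cons_cons] at hch
    have hnd' := List.nodup_cons.1 hnd
    obtain ⟨p, hp1, hp2, hp3⟩ := ih b hch.2 hnd'.2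
    refine ⟨SimpleGraph.Walk.cons hch.1 p, ?_, ?_, ?_⟩
    · exact (SimpleGraph.Walk.cons_isPath_iff hch.1 p).2 ⟨hp1, fun h => hnd'.1 (hp3 _ h)⟩
    · change p.length + 1 = _
      rw [hp2, List.length_cons]
    · intro x hx
      rcases List.mem_cons.1 hx with rfl | hx
      · simp
      · exact List.mem_cons_of_mem _ (hp3 x hx)

/-- a list which closes up to a cycle -/
private theorem Girth_list {W : Type u} {H : SimpleGraph W} {n : ℕ}
    (h : ∀ (x : W) (w : H.Walk x x), w.IsCycle → n < w.length) (a b : W)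
    (l : List W) (hch : List.IsChain H.Adj (a :: b :: l))
    (hnd : (a :: b :: l).Nodup) (hl : 1 ≤ l.length) (hn : l.length + 2 ≤ n)
    (hcl : ∀ hne : (a :: b :: l) ≠ [], H.Adj ((a :: b :: l).getLast hne) a) : False := by
  obtain ⟨p, hp1, hp2, -⟩ := Girth_walk H (b :: l) a hch hnd
  have hcy := Girth_cyc (hcl (by simp)) p hp1 (by rw [hp2, List.length_cons]; omega)
  have h1 : n < p.length + 1 := h _ _ hcy
  rw [hp2, List.length_cons] at h1
  omega

/-- a vertex of the link -/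
private def Girth_mk {G : SimpleGraph V} {z : V} (x : V) (h : G.Adj z x) : G.neighborSet z := ⟨x, h⟩

private theorem Girth_adj {G : SimpleGraph V} {z x y : V} (hx : G.Adj z x) (hy : G.Adj z y)
    (h : G.Adj x y) : (G.induce (G.neighborSet z)).Adj (Girth_mk x hx) (Girth_mk y hy) := h

private theorem Girth_mkne {G : SimpleGraph V} {z x y : V} (hx : G.Adj z x) (hy : G.Adj z y)
    (h : x ≠ y) : Girth_mk x hx ≠ Girth_mk y hy := fun e => h (congrArg Subtype.val e)

theorem nc4_of {G : SimpleGraph V} {col : V → Fin 3} (hT : Tri G col) (z : V)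
    (h : LinkGt G z 4) : NC4 G z := by
  intro b1 b2 c1 c2 zb1 zb2 zc1 zc2 a1 a2 a3 a4 n1 n2
  have := hT
  refine Girth_list h (Girth_mk b1 zb1) (Girth_mk c1 zc1) [Girth_mk b2 zb2, Girth_mk c2 zc2] ?_ ?_
    (by simp) (by simp) ?_
  · simp only [List.isChain_cons_cons, List.isChain_singleton, and_true]
    exact ⟨Girth_adj _ _ a1, Girth_adj _ _ a2, Girth_adj _ _ a3⟩
  · simp only [List.nodup_cons, List.mem_cons, List.not_mem_nil, or_false, not_or,
      List.nodup_nil, not_false_eq_true, and_true]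
    exact ⟨⟨Girth_mkne _ _ a1.ne, Girth_mkne _ _ n1, Girth_mkne _ _ a4.ne.symm⟩,
      ⟨Girth_mkne _ _ a2.ne, Girth_mkne _ _ n2⟩, Girth_mkne _ _ a3.ne⟩
  · intro _; exact Girth_adj _ _ a4

theorem nc6_of {G : SimpleGraph V} {col : V → Fin 3} (hT : Tri G col) (z : V)
    (h : LinkGt G z 6) : NC6 G z := by
  intro b1 b2 b3 c1 c2 c3 zb1 zb2 zb3 zc1 zc2 zc3 a1 a2 a3 a4 a5 a6 n12 n13 n23 m12 m13 m23
  have f1 := Girth_col hT zc1 zb2 zc2 a2 a3
  have f2 := Girth_col hT zc2 zb3 zc3 a4 a5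
  have g1 : b1 ≠ c2 := Girth_ne hT a1 rfl f1
  have g2 : b2 ≠ c3 := Girth_ne hT a3 rfl f2
  have g3 : b3 ≠ c1 := Girth_ne hT a5 rfl (f1.trans f2).symm
  refine Girth_list h (Girth_mk b1 zb1) (Girth_mk c1 zc1) [Girth_mk b2 zb2, Girth_mk c2 zc2,
    Girth_mk b3 zb3, Girth_mk c3 zc3] ?_ ?_ (by simp) (by simp) ?_
  · simp only [List.isChain_cons_cons, List.isChain_singleton, and_true]
    exact ⟨Girth_adj _ _ a1, Girth_adj _ _ a2, Girth_adj _ _ a3, Girth_adj _ _ a4, Girth_adj _ _ a5⟩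
  · simp only [List.nodup_cons, List.mem_cons, List.not_mem_nil, or_false, not_or,
      List.nodup_nil, not_false_eq_true, and_true]
    refine ⟨⟨?_, ?_, ?_, ?_, ?_⟩, ⟨?_, ?_, ?_, ?_⟩, ⟨?_, ?_, ?_⟩, ⟨?_, ?_⟩, ?_⟩ <;>
      apply Girth_mkne <;>
      first
        | assumption
        | exact a1.ne
        | exact a2.ne
        | exact a3.ne
        | exact a4.ne
        | exact a5.ne
        | exact a6.ne.symm
        | exact g3.symm
  · intro _; exact Girth_adj _ _ a6

theorem nc8_of {G : SimpleGraph V} {col : V → Fin 3} (hT : Tri G col) (z : V)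
    (h : LinkGt G z 8) : NC8 G z := by
  intro b1 b2 b3 b4 c1 c2 c3 c4 zb1 zb2 zb3 zb4 zc1 zc2 zc3 zc4 a1 a2 a3 a4 a5 a6 a7 a8
    n12 n13 n14 n23 n24 n34 m12 m13 m14 m23 m24 m34
  have f1 := Girth_col hT zc1 zb2 zc2 a2 a3
  have f2 := Girth_col hT zc2 zb3 zc3 a4 a5
  have f3 := Girth_col hT zc3 zb4 zc4 a6 a7
  have g12 : b1 ≠ c2 := Girth_ne hT a1 rfl f1
  have g13 : b1 ≠ c3 := Girth_ne hT a1 rfl (f1.trans f2)
  have g23 : b2 ≠ c3 := Girth_ne hT a3 rfl f2
  have g24 : b2 ≠ c4 := Girth_ne hT a3 rfl (f2.trans f3)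
  have g34 : b3 ≠ c4 := Girth_ne hT a5 rfl f3
  have g31 : b3 ≠ c1 := Girth_ne hT a5 rfl (f1.trans f2).symm
  have g41 : b4 ≠ c1 := Girth_ne hT a7 rfl (f1.trans (f2.trans f3)).symm
  have g42 : b4 ≠ c2 := Girth_ne hT a7 rfl (f2.trans f3).symm
  refine Girth_list h (Girth_mk b1 zb1) (Girth_mk c1 zc1) [Girth_mk b2 zb2, Girth_mk c2 zc2,
    Girth_mk b3 zb3, Girth_mk c3 zc3, Girth_mk b4 zb4, Girth_mk c4 zc4] ?_ ?_ (by simp) (by simp) ?_
  · simp only [List.isChain_cons_cons, List.isChain_singleton, and_true]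
    exact ⟨Girth_adj _ _ a1, Girth_adj _ _ a2, Girth_adj _ _ a3, Girth_adj _ _ a4, Girth_adj _ _ a5,
      Girth_adj _ _ a6, Girth_adj _ _ a7⟩
  · simp only [List.nodup_cons, List.mem_cons, List.not_mem_nil, or_false, not_or,
      List.nodup_nil, not_false_eq_true, and_true]
    refine ⟨⟨?_, ?_, ?_, ?_, ?_, ?_, ?_⟩, ⟨?_, ?_, ?_, ?_, ?_, ?_⟩, ⟨?_, ?_, ?_, ?_, ?_⟩,
      ⟨?_, ?_, ?_, ?_⟩, ⟨?_, ?_, ?_⟩, ⟨?_, ?_⟩, ?_⟩ <;>
      apply Girth_mkne <;>
      first
        | assumption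
        | exact a1.ne
        | exact a2.ne
        | exact a3.ne
        | exact a4.ne
        | exact a5.ne
        | exact a6.ne
        | exact a7.ne
        | exact a8.ne.symm
        | exact g31.symm
        | exact g41.symm
        | exact g42.symm
  · intro _; exact Girth_adj _ _ a8

theorem nc10_of {G : SimpleGraph V} {col : V → Fin 3} (hT : Tri G col) (z : V)
    (h : LinkGt G z 10) : NC10 G z := by
  intro b1 b2 b3 b4 b5 c1 c2 c3 c4 c5 zb1 zb2 zb3 zb4 zb5 zc1 zc2 zc3 zc4 zc5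
    a1 a2 a3 a4 a5 a6 a7 a8 a9 a10
    n12 n13 n14 n15 n23 n24 n25 n34 n35 n45 m12 m13 m14 m15 m23 m24 m25 m34 m35 m45
  have f1 := Girth_col hT zc1 zb2 zc2 a2 a3
  have f2 := Girth_col hT zc2 zb3 zc3 a4 a5
  have f3 := Girth_col hT zc3 zb4 zc4 a6 a7
  have f4 := Girth_col hT zc4 zb5 zc5 a8 a9
  have g12 : b1 ≠ c2 := Girth_ne hT a1 rfl f1
  have g13 : b1 ≠ c3 := Girth_ne hT a1 rfl (f1.trans f2)
  have g14 : b1 ≠ c4 := Girth_ne hT a1 rfl (f1.trans (f2.trans f3))
  have g23 : b2 ≠ c3 := Girth_ne hT a3 rfl f2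
  have g24 : b2 ≠ c4 := Girth_ne hT a3 rfl (f2.trans f3)
  have g25 : b2 ≠ c5 := Girth_ne hT a3 rfl (f2.trans (f3.trans f4))
  have g34 : b3 ≠ c4 := Girth_ne hT a5 rfl f3
  have g35 : b3 ≠ c5 := Girth_ne hT a5 rfl (f3.trans f4)
  have g31 : b3 ≠ c1 := Girth_ne hT a5 rfl (f1.trans f2).symm
  have g45 : b4 ≠ c5 := Girth_ne hT a7 rfl f4
  have g41 : b4 ≠ c1 := Girth_ne hT a7 rfl (f1.trans (f2.trans f3)).symm
  have g42 : b4 ≠ c2 := Girth_ne hT a7 rfl (f2.trans f3).symm
  have g51 : b5 ≠ c1 := Girth_ne hT a9 rfl (f1.trans (f2.trans (f3.trans f4))).symm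
  have g52 : b5 ≠ c2 := Girth_ne hT a9 rfl (f2.trans (f3.trans f4)).symm
  have g53 : b5 ≠ c3 := Girth_ne hT a9 rfl (f3.trans f4).symm
  refine Girth_list h (Girth_mk b1 zb1) (Girth_mk c1 zc1) [Girth_mk b2 zb2, Girth_mk c2 zc2,
    Girth_mk b3 zb3, Girth_mk c3 zc3, Girth_mk b4 zb4, Girth_mk c4 zc4, Girth_mk b5 zb5,
    Girth_mk c5 zc5] ?_ ?_ (by simp) (by simp) ?_
  · simp only [List.isChain_cons_cons, List.isChain_singleton, and_true]
    exact ⟨Girth_adj _ _ a1, Girth_adj _ _ a2, Girth_adj _ _ a3, Girth_adj _ _ a4, Girth_adj _ _ a5,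
      Girth_adj _ _ a6, Girth_adj _ _ a7, Girth_adj _ _ a8, Girth_adj _ _ a9⟩
  · simp only [List.nodup_cons, List.mem_cons, List.not_mem_nil, or_false, not_or,
      List.nodup_nil, not_false_eq_true, and_true]
    refine ⟨⟨?_, ?_, ?_, ?_, ?_, ?_, ?_, ?_, ?_⟩, ⟨?_, ?_, ?_, ?_, ?_, ?_, ?_, ?_⟩,
      ⟨?_, ?_, ?_, ?_, ?_, ?_, ?_⟩, ⟨?_, ?_, ?_, ?_, ?_, ?_⟩, ⟨?_, ?_, ?_, ?_, ?_⟩,
      ⟨?_, ?_, ?_, ?_⟩, ⟨?_, ?_, ?_⟩, ⟨?_, ?_⟩, ?_⟩ <;>
      apply Girth_mkne <;>
      first
        | assumption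
        | exact a1.ne
        | exact a2.ne
        | exact a3.ne
        | exact a4.ne
        | exact a5.ne
        | exact a6.ne
        | exact a7.ne
        | exact a8.ne
        | exact a9.ne
        | exact a10.ne.symm
        | exact g31.symm
        | exact g41.symm
        | exact g42.symm
        | exact g51.symm
        | exact g52.symm
        | exact g53.symm
  · intro _; exact Girth_adj _ _ a10

end Pool.H90TC
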