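import Pool.Agent.H90.TC.Tri

set_option autoImplicit false

/-!
A properly 3-coloured graph has no `K4`; a 5-cycle in a link is impossible since the link has only
two colours; a 4-cycle in a link is excluded by `NC4`.
-/

namespace Pool.H90TC

open Pool.H90SY

universe u

variable {V : Type u}

theorem linkOK_of_nc4 {G : SimpleGraph V} {col : V → Fin 3} (hT : Tri G col)
    (h : ∀ z : V, NC4 G z) : LinkOK G where
  k4 := by
    intro a b c d hab hac had hbc hbd hcd
    have h1 := hT.proper a b hab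
    have h2 := hT.proper a c hac
    have h3 := hT.proper a d had
    have h4 := hT.proper b c hbc
    have h5 := hT.proper b d hbd
    have h6 := hT.proper c d hcd
    have key : ∀ x y z w : Fin 3, ¬ (x ≠ y ∧ x ≠ z ∧ x ≠ w ∧ y ≠ z ∧ y ≠ w ∧ z ≠ w) := by
      decide
    exact key _ _ _ _ ⟨h1, h2, h3, h4, h5, h6⟩
  w4 := by
    intro z a b c d ha hb hc hd hab hbc hcd hda hac hbd
    exact h z a c b d ha hc hb hd hab hbc hcd hda hac hbd
  w5 := by
    intro z a b c d e ha hb hc hd he hab hbc hcd hde hea hac had hbd hbe hce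
    have key : ∀ x a b c d e : Fin 3, ¬ (x ≠ a ∧ x ≠ b ∧ x ≠ c ∧ x ≠ d ∧ x ≠ e ∧ a ≠ b ∧ b ≠ c ∧
        c ≠ d ∧ d ≠ e ∧ e ≠ a) := by
      decide
    exact key _ _ _ _ _ _ ⟨hT.proper z a ha, hT.proper z b hb, hT.proper z c hc,
      hT.proper z d hd, hT.proper z e he, hT.proper a b hab, hT.proper b c hbc,
      hT.proper c d hcd, hT.proper d e hde, hT.proper e a hea⟩

end Pool.H90TC
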