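import Pool.Agent.H90.TC.Hex.Main
import Pool.Agent.H90.TC.Sq.Main
import Pool.Agent.H90.TC.Fin.Girth
import Pool.Agent.H90.TC.Fin.LinkOK
import Pool.Agent.H90.SY.LG.Main

set_option autoImplicit false

namespace Pool.H90TC

open Pool.H90SY

universe u

variable {V : Type u}

/-- The link condition for angles `θ 0, θ 1, θ 2` with sum at most `π`: every cycle in the link of a
vertex of colour `i` has length `L` with `θ i * L ≥ 2 π`. -/
structure Ang (G : SimpleGraph V) (col : V → Fin 3) (θ : Fin 3 → ℝ) : Prop where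
  pos : ∀ i : Fin 3, 0 < θ i
  sum : θ 0 + θ 1 + θ 2 ≤ Real.pi
  link : ∀ (z : V) (x : G.neighborSet z) (w : (G.induce (G.neighborSet z)).Walk x x),
    w.IsCycle → 2 * Real.pi ≤ θ (col z) * w.length

/-- Nonpositively curved triangle complexes: the flag complex of `G` is simply connected, and
either all vertex links have girth at least 6, or `G` is properly 3-coloured, every edge lies in a
triangle, and the link condition for three angles with sum at most `π` holds. -/
def NPC (G : SimpleGraph V) : Prop :=
  SimplyConn G ∧ ((∀ z : V, 6 ≤ (G.induce (G.neighborSet z)).egirth) ∨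
    ∃ (col : V → Fin 3) (θ : Fin 3 → ℝ), Tri G col ∧ Ang G col θ)

theorem cover_mono {X : Type u} {d : X → X → ℕ} {n R D D' : ℕ} (h : CoverAt d n R D)
    (hD : D ≤ D') : CoverAt d n R D' := by
  obtain ⟨U, c, h1, h2, h3⟩ := h
  exact ⟨U, c, h1, fun A hA x hx y hy => (h2 A hA x hx y hy).trans hD, h3⟩

/-- cycles of length `2k` in the link of a vertex with `k θ < π` do not exist -/
theorem link_gt {G : SimpleGraph V} {col : V → Fin 3} {θ : Fin 3 → ℝ} (hA : Ang G col θ) (z : V)
    (n : ℕ) (h : (n : ℝ) * θ (col z) < 2 * Real.pi) : LinkGt G z n := by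
  intro x w hw
  have h1 := hA.link z x w hw
  by_contra hc
  rw [not_lt] at hc
  have h2 : (w.length : ℝ) ≤ n := by exact_mod_cast hc
  have h3 := hA.pos (col z)
  nlinarith

theorem tri_perm {G : SimpleGraph V} {col : V → Fin 3} (hT : Tri G col)
    (σ : Equiv.Perm (Fin 3)) : Tri G (fun v => σ (col v)) where
  proper := by
    intro u v h e
    exact hT.proper u v h (σ.injective e)
  pure := hT.pure

/-- the right angle or obtuse angle at colour `i` -/
theorem obtuse_cover {G : SimpleGraph V} {col : V → Fin 3} {θ : Fin 3 → ℝ} (hT : Tri G col)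
    (hA : Ang G col θ) (hc : G.Connected) (hs : ScInj G) (i j k : Fin 3)
    (σ : Equiv.Perm (Fin 3)) (hi : σ i = 1) (hj : σ j = 0) (hk : σ k = 2)
    (hsum : θ i + θ j + θ k ≤ Real.pi) (hob : Real.pi / 2 ≤ θ i) (hjk : θ j ≤ θ k) :
    ∀ R : ℕ, 1 ≤ R → CoverAt G.dist 2 R (168 * R) := by
  have hpi := Real.pi_pos
  have pj := hA.pos j
  have pk := hA.pos k
  have hT' := tri_perm hT σ
  have cj : ∀ z : V, σ (col z) = 0 → col z = j := fun z hz => σ.injective (hz.trans hj.symm)
  have ck : ∀ z : V, σ (col z) = 2 → col z = k := fun z hz => σ.injective (hz.trans hk.symm)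
  by_cases h : θ k < Real.pi / 3
  · -- type (2,4,4)
    have hX : SqLoc G (fun v => σ (col v)) := by
      refine ⟨?_, ?_, ?_, ?_⟩
      · intro z hz
        apply nc4_of hT'
        apply link_gt hA
        rw [cj z hz]
        push_cast
        linarith
      · intro z hz
        apply nc6_of hT'
        apply link_gt hA
        rw [cj z hz]
        push_cast
        linarith
      · intro z hz
        apply nc4_of hT'
        apply link_gt hA
        rw [ck z hz]
        push_cast
        linarith
      · intro z hz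
        apply nc6_of hT'
        apply link_gt hA
        rw [ck z hz]
        push_cast
        linarith
    exact sq_cover hT' hX hc hs
  · -- type (2,3,6)
    rw [not_lt] at h
    have hX : HexLoc G (fun v => σ (col v)) := by
      refine ⟨?_, ?_, ?_, ?_, ?_⟩
      · intro z hz
        apply nc4_of hT'
        apply link_gt hA
        rw [cj z hz]
        push_cast
        linarith
      · intro z hz
        apply nc6_of hT'
        apply link_gt hA
        rw [cj z hz]
        push_cast
        linarith
      · intro z hz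
        apply nc8_of hT'
        apply link_gt hA
        rw [cj z hz]
        push_cast
        linarith
      · intro z hz
        apply nc10_of hT'
        apply link_gt hA
        rw [cj z hz]
        push_cast
        linarith
      · intro z hz
        apply nc4_of hT'
        apply link_gt hA
        rw [ck z hz]
        push_cast
        linarith
    exact hex_cover hT' hX hc hs

theorem ang_cover {G : SimpleGraph V} {col : V → Fin 3} {θ : Fin 3 → ℝ} (hT : Tri G col)
    (hA : Ang G col θ) (hc : G.Connected) (hs : SimplyConn G) :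
    ∀ R : ℕ, 1 ≤ R → CoverAt G.dist 2 R (168 * R) := by
  have hsc := scInj_of_simplyConn hs
  have hpi := Real.pi_pos
  have hsum := hA.sum
  have p0 := hA.pos 0
  have p1 := hA.pos 1
  have p2 := hA.pos 2
  -- one angle at least `π/2`
  have main : ∀ (i j k : Fin 3) (σ τ : Equiv.Perm (Fin 3)), σ i = 1 → σ j = 0 → σ k = 2 →
      τ i = 1 → τ k = 0 → τ j = 2 → θ i + θ j + θ k ≤ Real.pi → Real.pi / 2 ≤ θ i →
      ∀ R : ℕ, 1 ≤ R → CoverAt G.dist 2 R (168 * R) := by
    intro i j k σ τ h1 h2 h3 h4 h5 h6 h7 h8
    rcases le_total (θ j) (θ k) with h | h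
    · exact obtuse_cover hT hA hc hsc i j k σ h1 h2 h3 h7 h8 h
    · exact obtuse_cover hT hA hc hsc i k j τ h4 h5 h6 (by linarith) h8 h
  by_cases h0 : Real.pi / 2 ≤ θ 0
  · refine main 0 1 2 (Equiv.swap 0 1) (finRotate 3) ?_ ?_ ?_ ?_ ?_ ?_ (by linarith) h0 <;> decide
  by_cases h1 : Real.pi / 2 ≤ θ 1
  · refine main 1 0 2 (Equiv.refl _) (Equiv.swap 0 2) ?_ ?_ ?_ ?_ ?_ ?_ (by linarith) h1 <;> decide
  by_cases h2 : Real.pi / 2 ≤ θ 2
  · refine main 2 1 0 (finRotate 3).symm (Equiv.swap 1 2) ?_ ?_ ?_ ?_ ?_ ?_ (by linarith) h2 <;>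
      decide
  rw [not_le] at h0 h1 h2
  have hall : ∀ i : Fin 3, θ i < Real.pi / 2 := by
    intro i
    fin_cases i
    · exact h0
    · exact h1
    · exact h2
  have hL : LinkOK G := by
    apply linkOK_of_nc4 hT
    intro z
    apply nc4_of hT
    apply link_gt hA
    have := hall (col z)
    push_cast
    linarith
  obtain ⟨x0⟩ := hc.nonempty
  intro R hR
  exact cover_mono (lay_cover (lay_of_sc G hc hL hs x0) R hR) (by omega)

theorem npc_cover (G : SimpleGraph V) (hc : G.Connected) (h : NPC G) :
    ∀ R : ℕ, 1 ≤ R → CoverAt G.dist 2 R (168 * R) := by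
  obtain ⟨hs, h | ⟨col, θ, hT, hA⟩⟩ := h
  · obtain ⟨x0⟩ := hc.nonempty
    intro R hR
    exact cover_mono (lay_cover (lay_of_sc G hc (linkOK_of_girth G h) hs x0) R hR) (by omega)
  · exact ang_cover hT hA hc hs

end Pool.H90TC
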